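import Pool.Agent.W463.H10.Fixed

set_option autoImplicit false

/-!
# Rational solvability is NP-hard already for a fixed number of variables

A polynomial with integer coefficients is given by the list of its terms; the pair
`(c, [i₁, …, i_k])` stands for the term `c * x i₁ * ⋯ * x i_k`; integers are written in binary.

To decide whether an equation has a rational solution is NP-hard for equations of degree at most
`4` in `9` variables, and for equations of degree at most `32` in `5` variables.

The proof is in `Pool/Agent/H528R3/FD` and `Pool/Agent/W463/H10` (library of the starting point):
three-colourability of graphs is reduced to the existence of a rational point on a threefold fibred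
over an elliptic curve of rank one.
-/

namespace Pool.Agent.Results.MP_28f2cb_lc.FixedNumberOfVariables

open Pool.Agent.NPC

/-- The polynomial `p` has only terms of degree at most `d` in the variables `x 0, …, x (n - 1)`
and it has a zero with rational coordinates. -/
def HasZero (d n : ℕ) (p : List (ℤ × List ℕ)) : Prop :=
  (∀ t ∈ p, t.2.length ≤ d ∧ ∀ i ∈ t.2, i < n) ∧
    ∃ x : ℕ → ℚ, (p.map fun t => (t.1 : ℚ) * (t.2.map x).prod).sum = 0

/-- Rational solvability is `NP`-hard for equations of degree at most `4` in `9` variables, and
for equations of degree at most `32` in `5` variables. -/
theorem result : NPHard (lang (HasZero 4 9)) ∧ NPHard (lang (HasZero 32 5)) :=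
  ⟨Pool.Agent.W463.H10.hard_nine, Pool.Agent.W463.H10.hard_five⟩

end Pool.Agent.Results.MP_28f2cb_lc.FixedNumberOfVariables
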