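import Pool.Agent.H528R3.Huge

set_option autoImplicit false

/-!
# Quartic equations of linear size whose smallest rational solutions are quadruply exponential

There are polynomials with integer coefficients, of total degree at most `4`, in `C (n + 1)`
variables and with sum of absolute values of the coefficients at most `C (n + 1)`, which have a
rational zero, but such that every rational zero has a coordinate of height (maximum of the absolute
values of numerator and denominator) at least `2 ^ 2 ^ 2 ^ 2 ^ n`.

The proof is in `Pool/Agent/H528R3` (library of the starting point).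
-/

namespace Pool.Agent.Results.MP_28f2cb_lc.HugeSmallestSolutions

open MvPolynomial

/-- Polynomials of linear size and degree at most `4` whose smallest rational zeros are quadruply
exponential. -/
theorem result : ∃ C : ℕ, ∀ n : ℕ, ∃ p : MvPolynomial (Fin (C * (n + 1))) ℤ,
    p.totalDegree ≤ 4 ∧ ∑ m ∈ p.support, |p.coeff m| ≤ C * (n + 1) ∧
    (∃ x : Fin (C * (n + 1)) → ℚ, aeval x p = 0) ∧
    ∀ x : Fin (C * (n + 1)) → ℚ, aeval x p = 0 →
      ∃ i, 2 ^ (2 ^ (2 ^ (2 ^ n))) ≤ max (x i).num.natAbs (x i).den :=
  Pool.Agent.H528R3.huge_solutions

end Pool.Agent.Results.MP_28f2cb_lc.HugeSmallestSolutions
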