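import Pool.Agent.H528R2.Main
import Pool.Agent.W463.H10.Terms

set_option autoImplicit false

/-!
# Hilbert's tenth problem over the field of rational numbers is NEXP-hard for quartic equations

A polynomial with integer coefficients is given by the list of its terms; the pair
`(c, [i₁, …, i_k])` stands for the term `c * x i₁ * ⋯ * x i_k`.

To decide whether a polynomial all of whose terms have degree at most `4` and coefficient `1` or
`-1` has a zero with rational coordinates is NEXP-hard under polynomial-time many-one reductions;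
it follows, without any hypothesis, that this problem is neither in NP nor in coNP (nor in P).

The proof is in `Pool/Agent/H528R2` (library of the starting point): reduction from dependency
quantified Boolean formulas; arrays of exponential length are coded by single rational numbers
(which primes inert in `ℚ(√2)` divide a multiple of a point of an elliptic curve of rank one), the
tests are norm conditions.
-/

namespace Pool.Agent.Results.MP_28f2cb_lc.NexpHardQuartics

open Pool.Agent.NPC Pool.Agent.H528R2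

/-- `p` is a polynomial with all terms of degree at most `4` and all coefficients `1` or `-1`, and
it has a zero with rational coordinates. -/
def QuarticHasZero (p : List (ℤ × List ℕ)) : Prop :=
  (∀ t ∈ p, (t.1 = 1 ∨ t.1 = -1) ∧ t.2.length ≤ 4) ∧
    ∃ x : ℕ → ℚ, (p.map fun t => (t.1 : ℚ) * (t.2.map x).prod).sum = 0

/-- the polynomial of a constraint -/
def conP (c : ℕ × ℕ × ℕ × ℕ) : List (ℤ × List ℕ) :=
  if c.1 = 0 then [(1, [c.2.1]), (-1, [])]
  else if c.1 = 1 then [(1, [c.2.1]), (1, [c.2.2.1]), (-1, [c.2.2.2])]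
  else [(1, [c.2.1, c.2.2.1]), (-1, [c.2.2.2])]

theorem poly_conP : NPC.Poly conP := by
  unfold conP
  have h0 : NPC.Poly (fun c : ℕ × ℕ × ℕ × ℕ => c.1) := NPC.Poly.fst NPC.Poly.id
  have h1 : NPC.Poly (fun c : ℕ × ℕ × ℕ × ℕ => c.2.1) := NPC.Poly.fst (NPC.Poly.snd NPC.Poly.id)
  have h2 : NPC.Poly (fun c : ℕ × ℕ × ℕ × ℕ => c.2.2.1) :=
    NPC.Poly.fst (NPC.Poly.snd (NPC.Poly.snd NPC.Poly.id))
  have h3 : NPC.Poly (fun c : ℕ × ℕ × ℕ × ℕ => c.2.2.2) :=
    NPC.Poly.snd (NPC.Poly.snd (NPC.Poly.snd NPC.Poly.id))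
  have k1 : NPC.Poly (fun _ : ℕ × ℕ × ℕ × ℕ => (1 : ℤ)) := NPC.Poly.const _
  have k2 : NPC.Poly (fun _ : ℕ × ℕ × ℕ × ℕ => (-1 : ℤ)) := NPC.Poly.const _
  have kn : NPC.Poly (fun _ : ℕ × ℕ × ℕ × ℕ => ([] : List ℕ)) := NPC.Poly.const _
  have kk : NPC.Poly (fun _ : ℕ × ℕ × ℕ × ℕ => ([] : List (ℤ × List ℕ))) := NPC.Poly.const _
  refine NPC.Poly.ite (NPC.Poly.decide_eq h0 (NPC.Poly.const 0)) ?_ ?_
  · exact .cons (.pair k1 (.cons h1 kn)) (.cons (.pair k2 kn) kk)
  refine NPC.Poly.ite (NPC.Poly.decide_eq h0 (NPC.Poly.const 1)) ?_ ?_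
  · exact .cons (.pair k1 (.cons h1 kn)) (.cons (.pair k1 (.cons h2 kn))
      (.cons (.pair k2 (.cons h3 kn)) kk))
  · exact .cons (.pair k1 (.cons h1 (.cons h2 kn))) (.cons (.pair k2 (.cons h3 kn)) kk)

theorem conP_value (x : ℕ → ℚ) (c : ER.Con) :
    W463.H10.value x (conP c.code) = 0 ↔ HoldsQ x c := by
  cases c with
  | one i => simp [conP, ER.Con.code, W463.H10.value, HoldsQ, ← sub_eq_add_neg, sub_eq_zero]
  | add i j k =>
    simp only [conP, ER.Con.code, W463.H10.value, HoldsQ, List.map_cons, List.map_nil,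
      List.sum_cons, List.sum_nil, List.prod_cons, List.prod_nil, one_ne_zero, if_false, if_true]
    constructor
    · intro h; push_cast at h; linarith
    · intro h; push_cast; linarith
  | mul i j k =>
    simp only [conP, ER.Con.code, W463.H10.value, HoldsQ, List.map_cons, List.map_nil,
      List.sum_cons, List.sum_nil, List.prod_cons, List.prod_nil, OfNat.ofNat_ne_zero,
      OfNat.ofNat_ne_one, if_false]
    constructor
    · intro h; push_cast at h; linarith
    · intro h; push_cast; linarith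

theorem conP_terms (c : ℕ × ℕ × ℕ × ℕ) : ∀ t ∈ conP c, (t.1 = 1 ∨ t.1 = -1) ∧ t.2.length ≤ 2 := by
  intro t ht
  unfold conP at ht
  split_ifs at ht <;> simp only [List.mem_cons, List.not_mem_nil, or_false] at ht
  · rcases ht with rfl | rfl <;> simp
  · rcases ht with rfl | rfl | rfl <;> simp
  · rcases ht with rfl | rfl <;> simp

/-- the quartic of a system of constraints -/
def sysP (S : List ER.Con) : List (ℤ × List ℕ) := W463.H10.sqs (S.map fun c => conP c.code)

theorem poly_sysP : NPC.Poly sysP :=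
  W463.H10.poly_sqs (NPC.Poly.map NPC.Poly.id
    (poly_conP.comp (ER.poly_con_code (NPC.Poly.snd NPC.Poly.id))))

theorem sysP_terms (S : List ER.Con) :
    ∀ t ∈ sysP S, (t.1 = 1 ∨ t.1 = -1) ∧ t.2.length ≤ 4 := by
  intro t ht
  unfold sysP W463.H10.sqs at ht
  obtain ⟨p, hp, ht⟩ := List.mem_flatMap.1 ht
  obtain ⟨c, _, rfl⟩ := List.mem_map.1 hp
  unfold W463.H10.mulT at ht
  obtain ⟨s, hs, ht⟩ := List.mem_flatMap.1 ht
  obtain ⟨u, hu, rfl⟩ := List.mem_map.1 ht
  obtain ⟨a1, a2⟩ := conP_terms _ s hs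
  obtain ⟨b1, b2⟩ := conP_terms _ u hu
  refine ⟨?_, by simp only [List.length_append]; omega⟩
  rcases a1 with a1 | a1 <;> rcases b1 with b1 | b1 <;> simp [a1, b1]

theorem sysP_iff (S : List ER.Con) : QSat S ↔ QuarticHasZero (sysP S) := by
  constructor
  · rintro ⟨v, hv⟩
    refine ⟨sysP_terms S, v, ?_⟩
    refine (W463.H10.value_sqs v _).2 ?_
    intro p hp
    obtain ⟨c, hc, rfl⟩ := List.mem_map.1 hp
    exact (conP_value v c).2 (hv c hc)
  · rintro ⟨-, v, hv⟩
    refine ⟨v, fun c hc => ?_⟩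
    exact (conP_value v c).1 ((W463.H10.value_sqs v _).1 hv _ (List.mem_map_of_mem hc))

/-- Rational solvability of quartic equations is `NEXP`-hard, and neither in `NP` nor in `coNP`. -/
theorem result :
    NEXPHard (lang QuarticHasZero) ∧ ¬ InNP (lang QuarticHasZero) ∧
      ¬ InCoNP (lang QuarticHasZero) := by
  have h : NEXPHard (lang QuarticHasZero) :=
    (hardX_QSat.trans poly_sysP sysP_iff).toNEXPHard
  exact ⟨h, h.not_inNP, h.not_inCoNP⟩

end Pool.Agent.Results.MP_28f2cb_lc.NexpHardQuartics
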