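import Pool.Agent.TH588.UQ.Main

/-!
# Undecidability over the rationals with one universal quantifier

If `ℤ` were existentially definable in `ℚ`, the existential theory of `ℚ` would be undecidable. Here
it is shown that one universal quantifier in front is enough: there is one polynomial
`F(m, t, x₁, …, x_n)` with integer coefficients, of degree at most four, such that no algorithm
decides, given a natural number `m`, whether

  for all rational `t` there are rational `x₁, …, x_n` with `F(m, t, x₁, …, x_n) = 0`.

More precisely, the complement of every recursively enumerable set is reducible to this problem, and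
if `F(m, t, x) = 0` is not solvable for all `t` in the instances constructed, then there are a
squarefree natural number `t` and a dense set of rational numbers `t` for which it is not solvable. So
the range of the universal quantifier may be replaced by any set of rational numbers which contains
all squarefree natural numbers, or all rational numbers of an open interval.
-/

set_option autoImplicit false

namespace Pool.Agent.Results.MP_28f2cb_lc.OneUniversalQuantifier

open Nat.Partrec

/-- The equation `F(m, t, x₁, …, x_n) = 0` in the unknowns `x₁, …, x_n` has a rational solution. -/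
def Solvable {n : ℕ} (F : MvPolynomial (Fin 2 ⊕ Fin n) ℤ) (m t : ℚ) : Prop :=
  ∃ x : Fin n → ℚ, MvPolynomial.aeval (Sum.elim ![m, t] x) F = 0

/-- The set of rational numbers contains all squarefree natural numbers, or all rational numbers of an
open interval. -/
def Large (T : Set ℚ) : Prop :=
  (∀ t : ℕ, Squarefree t → (t : ℚ) ∈ T) ∨ ∃ u v : ℚ, u < v ∧ Set.Ioo u v ⊆ T

/-- There is a polynomial `F` of degree at most four such that, for every set `T` of rational numbers
which contains all squarefree natural numbers or an open interval, the complement of every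
recursively enumerable set of natural numbers is many-one reducible (by one function for all `T`) to
the set of the natural numbers `m` such that `∀ t ∈ T, ∃ x, F(m, t, x) = 0`, and the latter set is not
computable. -/
theorem result : ∃ (n : ℕ) (F : MvPolynomial (Fin 2 ⊕ Fin n) ℤ), F.totalDegree ≤ 4 ∧
    (∀ P : ℕ → Prop, REPred P → ∃ g : ℕ → ℕ, Computable g ∧ ∀ (T : Set ℚ), Large T → ∀ a : ℕ,
      (¬ P a ↔ ∀ t ∈ T, Solvable F (g a) t)) ∧
    ∀ T : Set ℚ, Large T → ¬ ComputablePred fun m : ℕ => ∀ t ∈ T, Solvable F m t := by
  obtain ⟨n, F, hF, h⟩ := Pool.Agent.TH588.UQ.main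
  have key : ∀ P : ℕ → Prop, REPred P → ∃ g : ℕ → ℕ, Computable g ∧
      ∀ (T : Set ℚ), Large T → ∀ a : ℕ, (¬ P a ↔ ∀ t ∈ T, Solvable F (g a) t) := by
    intro P hP
    obtain ⟨g, hg, hgP⟩ := h P hP
    refine ⟨g, hg, fun T hT a => ⟨fun ha t _ => (hgP a).1 ha t, fun hall ha => ?_⟩⟩
    obtain ⟨⟨t, ht, hn⟩, hd⟩ := (hgP a).2 ha
    rcases hT with hT | ⟨u, v, huv, hT⟩
    · obtain ⟨x, hx⟩ := hall t (hT t ht)
      exact hn x hx
    · obtain ⟨s, h1, h2, h3⟩ := hd u v huv
      obtain ⟨x, hx⟩ := hall s (hT ⟨h1, h2⟩)
      exact h3 x hx
  refine ⟨n, F, hF, key, fun T hT hcomp => ?_⟩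
  -- the halting problem
  have hre : REPred fun a : ℕ => (Code.eval (Denumerable.ofNat Code a) 0).Dom := by
    have h1 : Partrec fun a : ℕ => Code.eval (Denumerable.ofNat Code a) 0 :=
      Code.eval_part.comp (Computable.ofNat Code) (Computable.const 0)
    exact h1.dom_re
  obtain ⟨g, hg, hgP⟩ := key _ hre
  have h1 : ComputablePred fun a : ℕ => ¬ (Code.eval (Denumerable.ofNat Code a) 0).Dom := by
    exact ComputablePred.computable_of_manyOneReducible
      (q := fun m : ℕ => ∀ t ∈ T, Solvable F m t) ⟨g, hg, fun a => hgP T hT a⟩ hcomp
  have h3 : ComputablePred fun a : ℕ => (Code.eval (Denumerable.ofNat Code a) 0).Dom := by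
    refine (ComputablePred.not h1).of_eq fun a => not_not
  have h4 : ComputablePred fun c : Code => (Code.eval c 0).Dom := by
    exact ComputablePred.computable_of_manyOneReducible
      (q := fun a : ℕ => (Code.eval (Denumerable.ofNat Code a) 0).Dom)
      ⟨Encodable.encode, Computable.encode, fun c => by
        simp only [Denumerable.ofNat_encode]⟩ h3
  exact ComputablePred.halting_problem 0 h4

end Pool.Agent.Results.MP_28f2cb_lc.OneUniversalQuantifier
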